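import Mathlib

/-!
# Contact classes in a two-parameter family of plane ICIS in characteristic `p`

All members `f_{a,b}` of the family with `a ≠ 0` are contact equivalent to
`(x^2 + 2 l x y^2, x y^3 + y^{p+5})`; so the two parameters are not moduli.
-/

set_option autoImplicit false

namespace Pool.Agent.Results.MP_65bbe4_ag.AllEquivalent

open MvPowerSeries Matrix

variable {F : Type*} [Field F]

/-- The ring of formal power series in two variables over `F`; the variables are `x = X 0` and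
`y = X 1`. -/
abbrev R (F : Type*) [Field F] := MvPowerSeries (Fin 2) F

/-- Contact equivalence of pairs of power series: `g = U · φ(f)` for some `U` in `GL(2, R)` and some
`F`-algebra automorphism `φ` of `R`. -/
def ContactEquiv (f g : Fin 2 → R F) : Prop :=
  ∃ (U : GL (Fin 2) (R F)) (φ : R F ≃ₐ[F] R F),
    g = (U : Matrix (Fin 2) (Fin 2) (R F)) *ᵥ fun i => φ (f i)

/-- The pair `f_{a,b}` of the family (`l` is a fixed square root of `-1`). -/
noncomputable def fam (p : ℕ) (l a b : F) : Fin 2 → R F :=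
  ![X 0 ^ 2 + X 1 ^ 4,
    X 1 ^ 5 + C l * X 0 * X 1 ^ 3 + C a * X 0 * X 1 ^ (p + 3) + X 0 * X 1 ^ (p + 4)
      + C b * X 0 * X 1 ^ (2 * p + 3)]

theorem ContactEquiv.symm {f g : Fin 2 → R F} (h : ContactEquiv f g) : ContactEquiv g f := by
  obtain ⟨U, φ, rfl⟩ := h
  refine ⟨(GeneralLinearGroup.map (φ.symm : R F →+* R F) U)⁻¹, φ.symm, ?_⟩
  have h1 : (fun i => φ.symm (((U : Matrix (Fin 2) (Fin 2) (R F)) *ᵥ fun i => φ (f i)) i))
      = ((GeneralLinearGroup.map (φ.symm : R F →+* R F) U : GL (Fin 2) (R F)) :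
          Matrix (Fin 2) (Fin 2) (R F)) *ᵥ f := by
    funext i
    simp [Matrix.mulVec, dotProduct]
  rw [h1, Matrix.mulVec_mulVec, ← Units.val_mul, inv_mul_cancel, Units.val_one, Matrix.one_mulVec]

theorem ContactEquiv.trans {f g h : Fin 2 → R F} (h1 : ContactEquiv f g) (h2 : ContactEquiv g h) :
    ContactEquiv f h := by
  obtain ⟨U, φ, rfl⟩ := h1
  obtain ⟨V, ψ, rfl⟩ := h2
  refine ⟨V * GeneralLinearGroup.map (ψ : R F →+* R F) U, φ.trans ψ, ?_⟩
  rw [Units.val_mul, ← Matrix.mulVec_mulVec]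
  congr 1
  funext i
  simp [Matrix.mulVec, dotProduct]

/-- A criterion for contact equivalence. -/
theorem contactEquiv_of {f g : Fin 2 → R F} (φ : R F ≃ₐ[F] R F) (m11 m12 m21 m22 : R F)
    (h1 : φ (f 0) = m11 * g 0 + m12 * g 1) (h2 : φ (f 1) = m21 * g 0 + m22 * g 1)
    (hdet : IsUnit (m11 * m22 - m12 * m21)) : ContactEquiv f g := by
  have hdet' : IsUnit (!![m11, m12; m21, m22] : Matrix (Fin 2) (Fin 2) (R F)).det := by
    rw [Matrix.det_fin_two_of]
    exact hdet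
  obtain ⟨U, hU⟩ := (Matrix.isUnit_iff_isUnit_det _).2 hdet'
  have hgf : ContactEquiv g f := by
    refine ⟨GeneralLinearGroup.map (φ.symm : R F →+* R F) U, φ.symm, ?_⟩
    have h3 : f 0 = φ.symm m11 * φ.symm (g 0) + φ.symm m12 * φ.symm (g 1) := by
      rw [← map_mul, ← map_mul, ← map_add, ← h1, AlgEquiv.symm_apply_apply]
    have h4 : f 1 = φ.symm m21 * φ.symm (g 0) + φ.symm m22 * φ.symm (g 1) := by
      rw [← map_mul, ← map_mul, ← map_add, ← h2, AlgEquiv.symm_apply_apply]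
    funext i
    fin_cases i
    · simpa [Matrix.mulVec, dotProduct, Fin.sum_univ_two, hU] using h3
    · simpa [Matrix.mulVec, dotProduct, Fin.sum_univ_two, hU] using h4
  exact hgf.symm

/-- Substitutions that are mutually inverse on the variables give an automorphism. -/
theorem exists_aut (a b : Fin 2 → R F) (ha : ∀ i, constantCoeff (a i) = 0)
    (hb : ∀ i, constantCoeff (b i) = 0)
    (hab : ∀ i, substAlgHom (R := F) (hasSubst_of_constantCoeff_zero hb) (a i) = X i)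
    (hba : ∀ i, substAlgHom (R := F) (hasSubst_of_constantCoeff_zero ha) (b i) = X i) :
    ∃ φ : R F ≃ₐ[F] R F, ∀ i, φ (X i) = a i := by
  have key : ∀ (c d : Fin 2 → R F) (hc : HasSubst c) (hd : HasSubst d)
      (_ : ∀ i, substAlgHom (R := F) hd (c i) = X i),
      (substAlgHom (R := F) hd).comp (substAlgHom hc) = AlgHom.id F (R F) := by
    intro c d hc hd hcd
    apply AlgHom.ext
    intro f
    rw [AlgHom.comp_apply, substAlgHom_comp_substAlgHom_apply hc hd f, substAlgHom_apply]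
    have : (fun s => substAlgHom (R := F) hd (c s)) = (X : Fin 2 → R F) := funext hcd
    rw [this, subst_self]
    rfl
  refine ⟨AlgEquiv.ofAlgHom (substAlgHom (R := F) (hasSubst_of_constantCoeff_zero ha))
    (substAlgHom (R := F) (hasSubst_of_constantCoeff_zero hb)) (key _ _ _ _ hba) (key _ _ _ _ hab),
    fun i => ?_⟩
  change substAlgHom (R := F) (hasSubst_of_constantCoeff_zero ha) (X i) = a i
  rw [substAlgHom_X]

/-- Elements fixed by every endomorphism that fixes `y`. -/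
def YFixed (t : R F) : Prop := ∀ ψ : R F →ₐ[F] R F, ψ (X 1) = X 1 → ψ t = t

theorem YFixed.C (a : F) : YFixed (C a : R F) := by
  intro ψ _
  have : (MvPowerSeries.C a : R F) = algebraMap F (R F) a := rfl
  rw [this, AlgHom.commutes]

theorem YFixed.y : YFixed (X 1 : R F) := fun _ h => h

theorem YFixed.add {s t : R F} (hs : YFixed s) (ht : YFixed t) : YFixed (s + t) := by
  intro ψ h
  rw [map_add, hs ψ h, ht ψ h]

theorem YFixed.sub {s t : R F} (hs : YFixed s) (ht : YFixed t) : YFixed (s - t) := by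
  intro ψ h
  rw [map_sub, hs ψ h, ht ψ h]

theorem YFixed.mul {s t : R F} (hs : YFixed s) (ht : YFixed t) : YFixed (s * t) := by
  intro ψ h
  rw [map_mul, hs ψ h, ht ψ h]

theorem YFixed.pow {s : R F} (hs : YFixed s) (n : ℕ) : YFixed (s ^ n) := by
  intro ψ h
  rw [map_pow, hs ψ h]

theorem YFixed.one : YFixed (1 : R F) := by
  intro ψ h
  rw [map_one]

theorem YFixed.inv {s t : R F} (hs : YFixed s) (hst : t * s = 1) : YFixed t := by
  intro ψ h
  have h1 : ψ t * s = 1 := by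
    rw [← hs ψ h, ← map_mul, hst, map_one]
  calc ψ t = ψ t * (t * s) := by rw [hst, mul_one]
    _ = (ψ t * s) * t := by ring
    _ = t := by rw [h1, one_mul]

/-- The automorphism `x ↦ θ x + ξ`, `y ↦ y`. -/
theorem exists_triangular (θ θ' ξ : R F) (hθ : YFixed θ) (hξ : YFixed ξ) (h : θ' * θ = 1)
    (h0 : constantCoeff ξ = 0) :
    ∃ φ : R F ≃ₐ[F] R F, φ (X 0) = θ * X 0 + ξ ∧ φ (X 1) = X 1 := by
  have hθ' : YFixed θ' := hθ.inv h
  have ha : ∀ i, constantCoeff ((![θ * X 0 + ξ, X 1] : Fin 2 → R F) i) = 0 := by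
    intro i
    fin_cases i
    · simp [h0]
    · simp
  have hb : ∀ i, constantCoeff ((![θ' * (X 0 - ξ), X 1] : Fin 2 → R F) i) = 0 := by
    intro i
    fin_cases i
    · simp [h0]
    · simp
  have ya : substAlgHom (R := F) (hasSubst_of_constantCoeff_zero ha) (X 1) = X 1 := by
    rw [substAlgHom_X]
    rfl
  have yb : substAlgHom (R := F) (hasSubst_of_constantCoeff_zero hb) (X 1) = X 1 := by
    rw [substAlgHom_X]
    rfl
  have xa : substAlgHom (R := F) (hasSubst_of_constantCoeff_zero ha) (X 0) = θ * X 0 + ξ := by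
    rw [substAlgHom_X]
    rfl
  have xb : substAlgHom (R := F) (hasSubst_of_constantCoeff_zero hb) (X 0) = θ' * (X 0 - ξ) := by
    rw [substAlgHom_X]
    rfl
  obtain ⟨φ, hφ⟩ := exists_aut _ _ ha hb (by
    intro i
    fin_cases i
    · change substAlgHom (R := F) (hasSubst_of_constantCoeff_zero hb) (θ * X 0 + ξ) = X 0
      rw [map_add, map_mul, hθ _ yb, hξ _ yb, xb]
      linear_combination (X 0 - ξ) * h
    · exact yb) (by
    intro i
    fin_cases i
    · change substAlgHom (R := F) (hasSubst_of_constantCoeff_zero ha) (θ' * (X 0 - ξ)) = X 0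
      rw [map_mul, map_sub, hθ' _ ya, hξ _ ya, xa]
      linear_combination (X 0) * h
    · exact ya)
  exact ⟨φ, hφ 0, hφ 1⟩

/-- The automorphism `x ↦ α x`, `y ↦ β y`. -/
theorem exists_scaling (α β : F) (hα : α ≠ 0) (hβ : β ≠ 0) :
    ∃ φ : R F ≃ₐ[F] R F, φ (X 0) = C α * X 0 ∧ φ (X 1) = C β * X 1 := by
  have ha : ∀ i, constantCoeff ((![C α * X 0, C β * X 1] : Fin 2 → R F) i) = 0 := by
    intro i
    fin_cases i <;> simp
  have hb : ∀ i, constantCoeff ((![C α⁻¹ * X 0, C β⁻¹ * X 1] : Fin 2 → R F) i) = 0 := by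
    intro i
    fin_cases i <;> simp
  have hC : ∀ (ψ : R F →ₐ[F] R F) (c : F), ψ (C c) = C c := by
    intro ψ c
    have : (MvPowerSeries.C c : R F) = algebraMap F (R F) c := rfl
    rw [this, AlgHom.commutes]
  have e1 : (C α : R F) * C α⁻¹ = 1 := by rw [← map_mul, mul_inv_cancel₀ hα, map_one]
  have e2 : (C β : R F) * C β⁻¹ = 1 := by rw [← map_mul, mul_inv_cancel₀ hβ, map_one]
  obtain ⟨φ, hφ⟩ := exists_aut _ _ ha hb (by
    intro i
    fin_cases i
    · change substAlgHom (R := F) (hasSubst_of_constantCoeff_zero hb) (C α * X 0) = X 0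
      rw [map_mul, hC, substAlgHom_X]
      change C α * (C α⁻¹ * X 0) = X 0
      linear_combination (X 0) * e1
    · change substAlgHom (R := F) (hasSubst_of_constantCoeff_zero hb) (C β * X 1) = X 1
      rw [map_mul, hC, substAlgHom_X]
      change C β * (C β⁻¹ * X 1) = X 1
      linear_combination (X 1) * e2) (by
    intro i
    fin_cases i
    · change substAlgHom (R := F) (hasSubst_of_constantCoeff_zero ha) (C α⁻¹ * X 0) = X 0
      rw [map_mul, hC, substAlgHom_X]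
      change C α⁻¹ * (C α * X 0) = X 0
      linear_combination (X 0) * e1
    · change substAlgHom (R := F) (hasSubst_of_constantCoeff_zero ha) (C β⁻¹ * X 1) = X 1
      rw [map_mul, hC, substAlgHom_X]
      change C β⁻¹ * (C β * X 1) = X 1
      linear_combination (X 1) * e2)
  exact ⟨φ, hφ 0, hφ 1⟩

/-- The normal form. -/
noncomputable def nf (p : ℕ) (l : F) (k : R F) : Fin 2 → R F :=
  ![X 0 ^ 2 + C (2 * l) * (X 0 * X 1 ^ 2), X 0 * X 1 ^ 3 + k * X 1 ^ (p + 5)]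

theorem hom_C (ψ : R F ≃ₐ[F] R F) (c : F) : ψ (C c) = C c := by
  have : (MvPowerSeries.C c : R F) = algebraMap F (R F) c := rfl
  rw [this, AlgEquiv.commutes]

theorem YFixed.equiv {t : R F} (ht : YFixed t) (ψ : R F ≃ₐ[F] R F) (h : ψ (X 1) = X 1) :
    ψ t = t :=
  ht (ψ : R F →ₐ[F] R F) h

theorem unit_of_const {t : R F} (h : constantCoeff t ≠ 0) : IsUnit t := by
  rw [isUnit_iff_constantCoeff]
  exact isUnit_iff_ne_zero.2 h

/-- First reduction: `f_{a,b}` is equivalent to the normal form with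
`k = u - y^p u^2 E`, where `u = a + y + b y^p` and `E (l + y^p u) = 1`. -/
theorem step_one {p : ℕ} (hp : p ≠ 0) {l : F} (hl : l ^ 2 = -1) (a b : F) :
    ∃ E : R F, YFixed E ∧ ContactEquiv (fam p l a b)
      (nf p l ((C a + X 1 + C b * X 1 ^ p)
        - X 1 ^ p * (C a + X 1 + C b * X 1 ^ p) ^ 2 * E)) := by
  have hl0 : l ≠ 0 := by
    rintro rfl
    norm_num at hl
  have hu : IsUnit (C l + X 1 ^ p * (C a + X 1 + C b * X 1 ^ p) : R F) := by
    apply unit_of_const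
    simpa [hp] using hl0
  obtain ⟨E, hE⟩ := hu.exists_left_inv
  have hYu : YFixed (C a + X 1 + C b * X 1 ^ p : R F) :=
    ((YFixed.C a).add YFixed.y).add ((YFixed.C b).mul (YFixed.y.pow p))
  have hYE : YFixed E := ((YFixed.C l).add ((YFixed.y.pow p).mul hYu)).inv hE
  obtain ⟨φ, hφ0, hφ1⟩ := exists_triangular (F := F) 1 1 (C l * X 1 ^ 2) YFixed.one
    ((YFixed.C l).mul (YFixed.y.pow 2)) (one_mul 1) (by simp)
  have hC2 : (C (2 * l) : R F) = 2 * C l := by
    rw [map_mul]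
    rfl
  have hCl : (C l : R F) ^ 2 = -1 := by
    rw [← map_pow, hl, map_neg, map_one]
  refine ⟨E, hYE, contactEquiv_of φ 1 0 0 (C l + X 1 ^ p * (C a + X 1 + C b * X 1 ^ p)) ?_ ?_ ?_⟩
  · change φ (X 0 ^ 2 + X 1 ^ 4)
      = 1 * (X 0 ^ 2 + C (2 * l) * (X 0 * X 1 ^ 2)) + 0 * (X 0 * X 1 ^ 3 + _ * X 1 ^ (p + 5))
    rw [map_add, map_pow, map_pow, hφ0, hφ1, hC2]
    linear_combination (X 1 ^ 4 : R F) * hCl
  · change φ (X 1 ^ 5 + C l * X 0 * X 1 ^ 3 + C a * X 0 * X 1 ^ (p + 3) + X 0 * X 1 ^ (p + 4)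
      + C b * X 0 * X 1 ^ (2 * p + 3))
      = 0 * (X 0 ^ 2 + C (2 * l) * (X 0 * X 1 ^ 2)) + (C l + X 1 ^ p * (C a + X 1 + C b * X 1 ^ p))
        * (X 0 * X 1 ^ 3 + ((C a + X 1 + C b * X 1 ^ p)
        - X 1 ^ p * (C a + X 1 + C b * X 1 ^ p) ^ 2 * E) * X 1 ^ (p + 5))
    simp only [map_add, map_mul, map_pow, hφ0, hφ1, hom_C]
    linear_combination (X 1 ^ 5) * hCl
      + X 1 ^ p * (C a + X 1 + C b * X 1 ^ p) ^ 2 * X 1 ^ (p + 5) * hE
  · rw [one_mul, zero_mul, sub_zero]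
    exact hu

/-- Second reduction, odd characteristic: the linear coefficient of `k` can be removed. -/
theorem step_two {q : ℕ} {l κ k₁ : F} (hl0 : l ≠ 0) (h2 : (2 : F) ≠ 0) (hκ : κ ≠ 0)
    {k₂ : R F} (hk₂ : YFixed k₂) :
    ContactEquiv (nf (q + 2) l (C κ + C k₁ * X 1 + k₂ * X 1 ^ 2)) (nf (q + 2) l (C κ)) := by
  obtain ⟨t, ht⟩ : ∃ t : F, k₁ = 2 * κ * t := ⟨k₁ / (2 * κ), by field_simp⟩
  have hc0 : (2 * l : F) ≠ 0 := mul_ne_zero h2 hl0
  -- the unit `c - κ y^p`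
  have hu : IsUnit (C (2 * l) - C κ * X 1 ^ (q + 2) : R F) := by
    apply unit_of_const
    simpa using ⟨h2, hl0⟩
  obtain ⟨D, hD⟩ := hu.exists_left_inv
  have hθu : IsUnit (1 + C t * X 1 - C t ^ 2 * X 1 ^ 2 : R F) := by
    apply unit_of_const
    simp
  obtain ⟨θ', hθ'⟩ := hθu.exists_left_inv
  have hYθ : YFixed (1 + C t * X 1 - C t ^ 2 * X 1 ^ 2 : R F) :=
    (YFixed.one.add ((YFixed.C t).mul YFixed.y)).sub (((YFixed.C t).pow 2).mul (YFixed.y.pow 2))
  have hYξ : YFixed (-(1 : F) • (C κ * C t * X 1 ^ (q + 5)) : R F) := by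
    intro ψ h
    rw [map_smul, (((YFixed.C κ).mul (YFixed.C t)).mul (YFixed.y.pow (q + 5))) ψ h]
  have hξ0 : constantCoeff (-(1 : F) • (C κ * C t * X 1 ^ (q + 5)) : R F) = 0 := by
    simp
  obtain ⟨φ, hφ0, hφ1⟩ := exists_triangular _ θ' _ hYθ hYξ hθ' hξ0
  have hξ : (-(1 : F) • (C κ * C t * X 1 ^ (q + 5)) : R F) = -(C κ * C t * X 1 ^ (q + 5)) := by
    rw [neg_smul, one_smul]
  rw [hξ] at hφ0
  obtain ⟨κ', hκ'⟩ : ∃ κ' : R F, κ' * C κ = 1 := ⟨C κ⁻¹, by
    rw [← map_mul, inv_mul_cancel₀ hκ, map_one]⟩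
  have hk1 : (C k₁ : R F) = 2 * C κ * C t := by
    rw [ht, map_mul, map_mul]
    rfl
  have hφk : φ k₂ = k₂ := hk₂.equiv φ hφ1
  set x : R F := X 0 with hx
  set y : R F := X 1 with hy
  set c : R F := C (2 * l) with hc
  set K : R F := C κ with hK
  set T : R F := C t with hT
  set W : R F := 2 * c * T ^ 3 - c * T ^ 4 * y - 2 * K * T * (1 + T * y - T ^ 2 * y ^ 2) * y ^ q
    - K * T ^ 2 * y ^ (q + 1) with hW
  refine contactEquiv_of φ ((1 + T * y - T ^ 2 * y ^ 2) ^ 2 + W * D * y ^ 3)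
    (-(c * T) + K * T ^ 2 * y ^ (q + 3) - W * D * x)
    (-((T ^ 2 + k₂ * κ') * D * y ^ 3))
    (1 + T * y + k₂ * κ' * y ^ 2 + (T ^ 2 + k₂ * κ') * D * x) ?_ ?_ ?_
  · change φ (x ^ 2 + c * (x * y ^ 2))
      = _ * (x ^ 2 + c * (x * y ^ 2)) + _ * (x * y ^ 3 + K * y ^ (q + 2 + 5))
    simp only [map_add, map_mul, map_pow, hφ0, hφ1]
    have hφc : φ c = c := hom_C φ _
    rw [hφc]
    linear_combination (-(W * x * y ^ 5)) * hD
  · change φ (x * y ^ 3 + (K + C k₁ * y + k₂ * y ^ 2) * y ^ (q + 2 + 5))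
      = _ * (x ^ 2 + c * (x * y ^ 2)) + _ * (x * y ^ 3 + K * y ^ (q + 2 + 5))
    have hφK : φ K = K := hom_C φ _
    have hφk1 : φ (C k₁) = C k₁ := hom_C φ _
    simp only [map_add, map_mul, map_pow, hφ0, hφ1, hφK, hφk1, hφk]
    rw [hk1]
    linear_combination (-(k₂ * y ^ (q + 9))) * hκ' + (T ^ 2 + k₂ * κ') * x * y ^ 5 * hD
  · apply unit_of_const
    simp [hx, hy]

/-- Third reduction: scaling. -/
theorem step_three {p : ℕ} (l κ α : F) (hα : α ≠ 0) (h : α ^ p * κ = 1) :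
    ContactEquiv (nf p l (C κ)) (nf p l 1) := by
  obtain ⟨φ, hφ0, hφ1⟩ := exists_scaling (α ^ 2) α (pow_ne_zero 2 hα) hα
  refine contactEquiv_of φ (C (α ^ 4)) 0 0 (C (α ^ 5)) ?_ ?_ ?_
  · change φ (X 0 ^ 2 + C (2 * l) * (X 0 * X 1 ^ 2))
      = _ * (X 0 ^ 2 + C (2 * l) * (X 0 * X 1 ^ 2)) + 0 * (X 0 * X 1 ^ 3 + 1 * X 1 ^ (p + 5))
    simp only [map_add, map_mul, map_pow, hφ0, hφ1, hom_C]
    ring
  · change φ (X 0 * X 1 ^ 3 + C κ * X 1 ^ (p + 5))
      = 0 * (X 0 ^ 2 + C (2 * l) * (X 0 * X 1 ^ 2)) + _ * (X 0 * X 1 ^ 3 + 1 * X 1 ^ (p + 5))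
    simp only [map_add, map_mul, map_pow, hφ0, hφ1, hom_C]
    have h' : (C α : R F) ^ p * C κ = 1 := by
      rw [← map_pow, ← map_mul, h, map_one]
    linear_combination (C α : R F) ^ 5 * X 1 ^ (p + 5) * h'
  · rw [zero_mul, sub_zero, ← map_mul]
    apply unit_of_const
    simp [hα]

/-- Reduction in characteristic two. -/
theorem step_char_two {l : F} (h2 : (2 : F) = 0) {k : R F} (hk : YFixed k) (hu : IsUnit k) :
    ContactEquiv (nf 2 l k) (nf 2 l 1) := by
  obtain ⟨k', hk'⟩ := hu.exists_left_inv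
  obtain ⟨φ, hφ0, hφ1⟩ := exists_triangular (F := F) k k' 0 hk
    (fun ψ _ => map_zero ψ) hk' (map_zero _)
  have hc : (C (2 * l) : R F) = 0 := by rw [h2, zero_mul, map_zero]
  refine contactEquiv_of φ (k ^ 2) 0 0 k ?_ ?_ ?_
  · change φ (X 0 ^ 2 + C (2 * l) * (X 0 * X 1 ^ 2))
      = _ * (X 0 ^ 2 + C (2 * l) * (X 0 * X 1 ^ 2)) + 0 * (X 0 * X 1 ^ 3 + 1 * X 1 ^ (2 + 5))
    simp only [map_add, map_mul, map_pow, hφ0, hφ1, hc, map_zero]
    ring
  · change φ (X 0 * X 1 ^ 3 + k * X 1 ^ (2 + 5))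
      = 0 * (X 0 ^ 2 + C (2 * l) * (X 0 * X 1 ^ 2)) + _ * (X 0 * X 1 ^ 3 + 1 * X 1 ^ (2 + 5))
    simp only [map_add, map_mul, map_pow, hφ0, hφ1, hk.equiv φ hφ1]
    ring
  · rw [zero_mul, sub_zero]
    exact (hu.pow 2).mul hu

/-- All `f_{a,b}` with `a ≠ 0` are equivalent to one normal form. -/
theorem fam_equiv_nf {p : ℕ} (hp : p.Prime) [CharP F p] [IsAlgClosed F] {l : F} (hl : l ^ 2 = -1)
    {a : F} (ha : a ≠ 0) (b : F) : ContactEquiv (fam p l a b) (nf p l 1) := by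
  obtain ⟨E, hE, hequiv⟩ := step_one hp.ne_zero hl a b
  refine hequiv.trans ?_
  have hl0 : l ≠ 0 := by
    rintro rfl
    norm_num at hl
  rcases hp.eq_two_or_odd' with rfl | hodd
  · have h2 : (2 : F) = 0 := by
      have := CharP.cast_eq_zero F 2
      simpa using this
    refine step_char_two h2 ?_ ?_
    · have hYu : YFixed (C a + X 1 + C b * X 1 ^ 2 : R F) :=
        ((YFixed.C a).add YFixed.y).add ((YFixed.C b).mul (YFixed.y.pow 2))
      exact hYu.sub (((YFixed.y.pow 2).mul (hYu.pow 2)).mul hE)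
    · apply unit_of_const
      simpa using ha
  · obtain ⟨q, rfl⟩ : ∃ q, p = q + 2 := ⟨p - 2, by have := hp.two_le; omega⟩
    have hq : q ≠ 0 := by
      rintro rfl
      exact absurd hodd (by decide)
    have h2 : (2 : F) ≠ 0 := by
      intro h
      have h3 : ((2 : ℕ) : F) = 0 := by exact_mod_cast h
      rw [CharP.cast_eq_zero_iff F (q + 2)] at h3
      have := Nat.le_of_dvd (by norm_num) h3
      omega
    have hYu : YFixed (C a + X 1 + C b * X 1 ^ (q + 2) : R F) :=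
      ((YFixed.C a).add YFixed.y).add ((YFixed.C b).mul (YFixed.y.pow (q + 2)))
    have hk : ((C a + X 1 + C b * X 1 ^ (q + 2))
        - X 1 ^ (q + 2) * (C a + X 1 + C b * X 1 ^ (q + 2)) ^ 2 * E : R F)
        = C a + C 1 * X 1 + (X 1 ^ q * (C b - (C a + X 1 + C b * X 1 ^ (q + 2)) ^ 2 * E))
          * X 1 ^ 2 := by
      rw [map_one]
      ring
    rw [hk]
    have hYk : YFixed (X 1 ^ q * (C b - (C a + X 1 + C b * X 1 ^ (q + 2)) ^ 2 * E) : R F) :=
      (YFixed.y.pow q).mul ((YFixed.C b).sub ((hYu.pow 2).mul hE))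
    refine (step_two hl0 h2 ha hYk).trans ?_
    obtain ⟨α, hα⟩ := IsAlgClosed.exists_pow_nat_eq a⁻¹ (show 0 < q + 2 by omega)
    refine step_three l a α ?_ ?_
    · rintro rfl
      rw [zero_pow (by omega)] at hα
      exact inv_ne_zero ha hα.symm
    · rw [hα, inv_mul_cancel₀ ha]

/-- **Theorem.** Let `F` be an algebraically closed field of characteristic `p > 0` and `l ^ 2 = -1`.
All `f_{a,b}` with `a ≠ 0` are contact equivalent to each other; in particular every non-empty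
Zariski-open subset of `F ^ 4` contains a point `(a, b, c, d)` with `f_{a,b} ∼ f_{c,d}`. -/
theorem result (p : ℕ) (hp : p.Prime) (F : Type*) [Field F] [IsAlgClosed F] [CharP F p] (l : F)
    (hl : l ^ 2 = -1) :
    (∀ a b c d : F, a ≠ 0 → c ≠ 0 → ContactEquiv (fam p l a b) (fam p l c d)) ∧
    ∀ P : MvPolynomial (Fin 4) F, P ≠ 0 → ∃ v : Fin 4 → F, MvPolynomial.eval v P ≠ 0 ∧
      ContactEquiv (fam p l (v 0) (v 1)) (fam p l (v 2) (v 3)) := by
  have h1 : ∀ a b c d : F, a ≠ 0 → c ≠ 0 → ContactEquiv (fam p l a b) (fam p l c d) :=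
    fun a b c d ha hc => (fam_equiv_nf hp hl ha b).trans (fam_equiv_nf hp hl hc d).symm
  refine ⟨h1, fun P hP => ?_⟩
  have : Infinite F := IsAlgClosed.instInfinite
  have hne : P * (MvPolynomial.X 0 * MvPolynomial.X 2) ≠ 0 :=
    mul_ne_zero hP (mul_ne_zero (MvPolynomial.X_ne_zero 0) (MvPolynomial.X_ne_zero 2))
  obtain ⟨v, hv⟩ : ∃ v : Fin 4 → F,
      MvPolynomial.eval v (P * (MvPolynomial.X 0 * MvPolynomial.X 2)) ≠ 0 := by
    by_contra hcon
    push Not at hcon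
    apply hne
    apply MvPolynomial.funext
    intro v
    rw [hcon v, map_zero]
  rw [map_mul, map_mul, MvPolynomial.eval_X, MvPolynomial.eval_X] at hv
  have hv1 := left_ne_zero_of_mul hv
  have hv2 := right_ne_zero_of_mul hv
  exact ⟨v, hv1, h1 _ _ _ _ (left_ne_zero_of_mul hv2) (right_ne_zero_of_mul hv2)⟩

end Pool.Agent.Results.MP_65bbe4_ag.AllEquivalent
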